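import Pool.Agent.Helper681.Stein4

/-!
Nontrivial Steinhaus pairs of plane sets: no interior, no property of Baire unless meager, no
positive measure, no countable partner of a Borel set, and no pair of `F_σ` sets.
-/

set_option autoImplicit false

namespace Pool.Agent.Results.MP_3a436c_lc.MeagerNull

open MeasureTheory Pool.Agent.Helper681.Stein

/-- Let `(A, B)` be a nontrivial Steinhaus pair in the plane (no regularity assumed). Then both sets
have empty interior, they are not both `F_σ`, and if one of them is Borel then it is meager and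
Lebesgue null and the other one is uncountable. -/
theorem result (A B : Set ℂ)
    (h : ∀ a b : ℂ, ‖a‖ = 1 → ∃! z : ℂ, z ∈ A ∧ ∃ w ∈ B, a * w + b = z)
    (hAB : ¬ ((∃ p : ℂ, A = {p}) ∧ B = Set.univ))
    (hBA : ¬ (A = Set.univ ∧ ∃ p : ℂ, B = {p})) :
    (interior A = ∅ ∧ interior B = ∅) ∧
    (¬ ∃ F G : ℕ → Set ℂ, (∀ n, IsClosed (F n)) ∧ (∀ n, IsClosed (G n)) ∧
      A = ⋃ n, F n ∧ B = ⋃ n, G n) ∧
    (BaireMeasurableSet A → IsMeagre A ∧ ¬ B.Countable) ∧
    (BaireMeasurableSet B → IsMeagre B ∧ ¬ A.Countable) ∧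
    (MeasurableSet A → IsMeagre A ∧ volume A = 0 ∧ ¬ B.Countable) ∧
    (MeasurableSet B → IsMeagre B ∧ volume B = 0 ∧ ¬ A.Countable) := by
  have hSP : SP A B := h
  have hSP' : SP B A := hSP.symm
  have hB : B.Nontrivial := nontriv hSP hBA
  have hA : A.Nontrivial := nontriv hSP' (fun hc => hAB ⟨hc.2, hc.1⟩)
  refine ⟨⟨interior_empty hSP hB, interior_empty hSP' hA⟩, ?_, ?_, ?_, ?_, ?_⟩
  · rintro ⟨F, G, hF, hG, hAF, hBG⟩
    exact not_Fs hSP hA hB F G hF hG hAF hBG
  · exact fun hm => ⟨meagre hSP hB hm, uncountable hSP hB hm⟩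
  · exact fun hm => ⟨meagre hSP' hA hm, uncountable hSP' hA hm⟩
  · exact fun hm => ⟨meagre hSP hB hm.baireMeasurableSet, null hSP hB hm,
      uncountable hSP hB hm.baireMeasurableSet⟩
  · exact fun hm => ⟨meagre hSP' hA hm.baireMeasurableSet, null hSP' hA hm,
      uncountable hSP' hA hm.baireMeasurableSet⟩

end Pool.Agent.Results.MP_3a436c_lc.MeagerNull
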